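import Mathlib
import Pool.Agent.Helper50.PR.Defs
import Pool.Agent.Helper50.PR.Main
import Pool.Agent.Helper50.PR.Sound
import Pool.Agent.Helper50.PR.Sound2
import Pool.Agent.Helper50.PR.Complete

/-!
# A prime-representing polynomial in 8 variables
-/

namespace Pool.Agent.Results.MP_90a715_lc.EightVariables

/-- `P` is prime-representing: its positive values at tuples of natural numbers are exactly the
prime numbers. -/
def PrimeRepresenting {n : ℕ} (P : MvPolynomial (Fin n) ℤ) : Prop :=
  {z : ℤ | 0 < z ∧ ∃ a : Fin n → ℕ, MvPolynomial.eval (fun i => (a i : ℤ)) P = z} =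
    {z : ℤ | ∃ p : ℕ, p.Prime ∧ z = (p : ℤ)}

open Pool.Agent.Helper50.PR in
/-- There is a prime-representing polynomial in 8 variables; hence `n_min ≤ 8`. -/
theorem result :
    (∃ P : MvPolynomial (Fin 8) ℤ, PrimeRepresenting P) ∧
      sInf {n : ℕ | ∃ P : MvPolynomial (Fin n) ℤ, PrimeRepresenting P} ≤ 8 := by
  have key : ∃ P : MvPolynomial (Fin 8) ℤ, PrimeRepresenting P := by
    refine ⟨vP (fun i => MvPolynomial.X i), ?_⟩
    have hev : ∀ a : Fin 8 → ℕ, MvPolynomial.eval (fun i => (a i : ℤ))
        (vP (fun i => (MvPolynomial.X i : MvPolynomial (Fin 8) ℤ))) = vP (fun i => (a i : ℤ)) := by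
      intro a
      rw [map_vP]
      simp
    ext z
    simp only [Set.mem_setOf_eq]
    constructor
    · rintro ⟨hz, a, ha⟩
      rw [hev] at ha
      unfold vP at ha
      by_cases ht : a 0 = 0
      · refine ⟨2, Nat.prime_two, ?_⟩
        rw [← ha]
        simp [vn, ht]
      · have ht1 : 1 ≤ a 0 := by omega
        by_cases hM : vM (fun i => (a i : ℤ)) = 0
        · refine ⟨a 0 + 2, core_sound a ht1 hM, ?_⟩
          rw [← ha, hM]
          simp [vn]
        · exfalso
          have h1 : 1 ≤ ((a 0 : ℤ) * vM (fun i => (a i : ℤ))) ^ 2 := by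
            have h0 : ((a 0 : ℤ) * vM (fun i => (a i : ℤ))) ≠ 0 :=
              mul_ne_zero (by exact_mod_cast ht) hM
            have := sq_pos_of_ne_zero h0
            linarith
          have h2 : 0 ≤ vn (fun i => (a i : ℤ)) := by
            unfold vn
            positivity
          have h3 : vn (fun i => (a i : ℤ)) *
              (1 - ((a 0 : ℤ) * vM (fun i => (a i : ℤ))) ^ 2) ≤ 0 :=
            mul_nonpos_of_nonneg_of_nonpos h2 (by linarith)
          linarith
    · rintro ⟨p, hp, rfl⟩
      refine ⟨by exact_mod_cast hp.pos, ?_⟩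
      rcases Nat.lt_or_ge p 3 with h | h
      · have hp2 : p = 2 := by
          have := hp.two_le
          omega
        refine ⟨fun _ => 0, ?_⟩
        rw [hev, hp2]
        simp [vP, vn]
      · obtain ⟨u, hu, hM⟩ := core_complete hp h
        refine ⟨u, ?_⟩
        rw [hev]
        unfold vP
        rw [hM]
        have : ((u 0 : ℤ) + 2) = p := by exact_mod_cast hu
        simp [vn, this]
  exact ⟨key, Nat.sInf_le key⟩

end Pool.Agent.Results.MP_90a715_lc.EightVariables
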