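import Mathlib
import Pool.Agent.Helper39.CUB.Core
import Pool.Agent.Helper39.CUB.Poly
import Pool.Agent.Helper33.DF.Robust
import Pool.Agent.Helper33.DF.Exists

/-!
# The least degree of a prime-representing polynomial is four
-/

namespace Pool.Agent.Results.MP_90a715_lc.LeastDegreeFour

/-- The set of positive values of `P` at tuples of natural numbers. -/
def posRange {n : ℕ} (P : MvPolynomial (Fin n) ℤ) : Set ℤ :=
  {z : ℤ | 0 < z ∧ ∃ a : Fin n → ℕ, MvPolynomial.eval (fun i => (a i : ℤ)) P = z}

/-- `P` is prime-representing: its positive values at tuples of natural numbers are exactly the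
prime numbers. -/
def PrimeRepresenting {n : ℕ} (P : MvPolynomial (Fin n) ℤ) : Prop :=
  posRange P = {z : ℤ | ∃ p : ℕ, p.Prime ∧ z = (p : ℤ)}

/-- In degree at most three, an infinite set of positive values on natural tuples contains
arbitrarily large pairs `P a < P b` with `b` congruent to `a` modulo `P a`. -/
theorem divisible_pair {n : ℕ} (P : MvPolynomial (Fin n) ℤ) (hP : P.totalDegree ≤ 3)
    (hinf : (posRange P).Infinite) (M : ℤ) :
    ∃ a b : Fin n → ℕ, M < MvPolynomial.eval (fun i => (a i : ℤ)) P ∧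
      MvPolynomial.eval (fun i => (a i : ℤ)) P < MvPolynomial.eval (fun i => (b i : ℤ)) P ∧
      (∀ i, MvPolynomial.eval (fun i => (a i : ℤ)) P ∣ (b i : ℤ) - (a i : ℤ)) ∧
      MvPolynomial.eval (fun i => (a i : ℤ)) P ∣ MvPolynomial.eval (fun i => (b i : ℤ)) P := by
  by_contra hcon
  push Not at hcon
  have hcub := PoolH39.CUB.isCubic_of_totalDegree P hP
  have hnat : ∀ a : Fin n → ℤ, (∀ i, 0 ≤ a i) →
      (fun i => (((a i).toNat : ℕ) : ℤ)) = a := fun a ha => by
    funext i; exact Int.toNat_of_nonneg (ha i)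
  obtain ⟨K, hK⟩ := PoolH39.CUB.core_star hcub.rep (M0 := max M 0) (le_max_right _ _) (by
      intro a ha hfa w hw
      by_contra hlt
      push Not at hlt
      have h := hcon (fun i => (a i).toNat)
        (fun i => (a i + MvPolynomial.eval a P * w i).toNat)
      rw [hnat a ha, hnat _ hw] at h
      refine h ((le_max_left _ _).trans_lt hfa) hlt (fun i => ?_) ?_
      · rw [Int.toNat_of_nonneg (ha i), Int.toNat_of_nonneg (hw i)]
        exact ⟨w i, by ring⟩
      · have h1 := dvd_add (hcub.dvd a w (MvPolynomial.eval a P)) (dvd_refl _)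
        simpa using h1)
  refine hinf ((Set.finite_Icc (0 : ℤ) K).subset ?_)
  rintro z ⟨hz, a, rfl⟩
  exact ⟨hz.le, hK _ fun i => Int.natCast_nonneg _⟩

/-- A prime-representing polynomial has total degree at least four. -/
theorem four_le {n : ℕ} (P : MvPolynomial (Fin n) ℤ) (hPR : PrimeRepresenting P) :
    4 ≤ P.totalDegree := by
  by_contra hdeg
  push Not at hdeg
  have hinf : (posRange P).Infinite := by
    rw [hPR]
    have h1 : {p : ℕ | p.Prime}.Infinite := Nat.infinite_setOfPred_prime
    refine (h1.image (f := fun p : ℕ => (p : ℤ)) (fun a _ b _ h => by simpa using h)).mono ?_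
    rintro z ⟨p, hp, rfl⟩
    exact ⟨p, hp, rfl⟩
  obtain ⟨a, b, h1, h2, -, h3⟩ := divisible_pair P (by omega) hinf 0
  have hprime : ∀ c : Fin n → ℕ, 0 < MvPolynomial.eval (fun i => (c i : ℤ)) P →
      ∃ p : ℕ, p.Prime ∧ MvPolynomial.eval (fun i => (c i : ℤ)) P = (p : ℤ) := by
    intro c hc
    have : MvPolynomial.eval (fun i => (c i : ℤ)) P ∈ posRange P := ⟨hc, c, rfl⟩
    rw [hPR] at this
    exact this
  obtain ⟨p, hp, hpe⟩ := hprime a h1
  obtain ⟨q, hq, hqe⟩ := hprime b (h1.trans h2)
  rw [hpe, hqe] at h2 h3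
  have h4 : p ∣ q := by exact_mod_cast h3
  have h5 : p = q := (Nat.prime_dvd_prime_iff_eq hp hq).mp h4
  have h6 : (p : ℤ) = q := by exact_mod_cast h5
  omega

/-- (1) The least total degree of a prime-representing polynomial, in any number of variables, is
4. (2) More generally the set of positive values of any polynomial with integer coefficients is
the set of positive values of one of total degree at most 4. (3) In degree at most 3 every
infinite set of positive values contains, above every bound, two values `P a < P b` with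
`b` congruent to `a` modulo `P a`, hence `P a ∣ P b`. -/
theorem result :
    IsLeast {d : ℕ | ∃ (n : ℕ) (P : MvPolynomial (Fin n) ℤ),
      PrimeRepresenting P ∧ P.totalDegree = d} 4 ∧
    (∀ (n : ℕ) (P : MvPolynomial (Fin n) ℤ),
      ∃ (m : ℕ) (R : MvPolynomial (Fin m) ℤ), R.totalDegree ≤ 4 ∧ posRange R = posRange P) ∧
    (∀ (n : ℕ) (P : MvPolynomial (Fin n) ℤ), P.totalDegree ≤ 3 → (posRange P).Infinite →
      ∀ M : ℤ, ∃ a b : Fin n → ℕ, M < MvPolynomial.eval (fun i => (a i : ℤ)) P ∧
        MvPolynomial.eval (fun i => (a i : ℤ)) P < MvPolynomial.eval (fun i => (b i : ℤ)) P ∧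
        (∀ i, MvPolynomial.eval (fun i => (a i : ℤ)) P ∣ (b i : ℤ) - (a i : ℤ)) ∧
        MvPolynomial.eval (fun i => (a i : ℤ)) P ∣
          MvPolynomial.eval (fun i => (b i : ℤ)) P) := by
  have hfour : ∀ (n : ℕ) (P : MvPolynomial (Fin n) ℤ),
      ∃ (m : ℕ) (R : MvPolynomial (Fin m) ℤ), R.totalDegree ≤ 4 ∧ posRange R = posRange P := by
    intro n P
    obtain ⟨m, R, hR, h⟩ := Pool.Agent.Helper33.DF.degree_four P
    exact ⟨m, R, hR, Set.ext fun z => and_congr_right fun hz => h z hz⟩
  refine ⟨⟨?_, ?_⟩, hfour, fun n P hP hinf M => divisible_pair P hP hinf M⟩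
  · obtain ⟨P, hP⟩ := Pool.Agent.Helper33.DF.exists_prime_representing
    obtain ⟨m, R, hR, he⟩ := hfour 8 P
    have hPR : PrimeRepresenting R := he.trans hP
    exact ⟨m, R, hPR, le_antisymm hR (four_le R hPR)⟩
  · rintro d ⟨n, P, hP, rfl⟩
    exact four_le P hP

end Pool.Agent.Results.MP_90a715_lc.LeastDegreeFour
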